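import Mathlib
import Pool.Agent.H577R3.RM.Stmts

set_option autoImplicit false

namespace Pool.Agent.H577R3.RM

namespace PairAux

/-- fewer linear forms than elements of `I`: a nonzero vector supported on `I` on which all the
forms vanish -/
theorem exists_supp {K : Type} [Field K] {n : ℕ} {ι : Type} [Fintype ι] (L : ι → Fin n → K)
    (I : Finset (Fin n)) (h : Fintype.card ι < I.card) :
    ∃ z : Fin n → K, (∀ x, x ∉ I → z x = 0) ∧ (∀ l, ∑ x, z x * L l x = 0) ∧ ∃ k ∈ I, z k ≠ 0 := by
  classical
  let f : ({x // x ∈ I} → K) →ₗ[K] (ι → K) :=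
    { toFun := fun z l => ∑ x : {x // x ∈ I}, z x * L l x.1
      map_add' := by
        intro a b
        funext l
        simp [add_mul, Finset.sum_add_distrib]
      map_smul' := by
        intro c a
        funext l
        simp [Finset.mul_sum, mul_assoc] }
  have hf : LinearMap.ker f ≠ ⊥ := by
    apply LinearMap.ker_ne_bot_of_finrank_lt
    simpa using h
  obtain ⟨z, hz, hz0⟩ := (Submodule.ne_bot_iff _).1 hf
  refine ⟨fun x => if hx : x ∈ I then z ⟨x, hx⟩ else 0, ?_, ?_, ?_⟩
  · intro x hx
    simp [hx]
  · intro l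
    have h1 : f z l = 0 := by
      rw [LinearMap.mem_ker] at hz
      rw [hz]; rfl
    have h2 : f z l = ∑ x : {x // x ∈ I}, z x * L l x.1 := rfl
    rw [h2] at h1
    rw [← Finset.sum_subset (Finset.subset_univ I)]
    · rw [← Finset.sum_coe_sort I]
      rw [← h1]
      apply Finset.sum_congr rfl
      intro x _
      simp [x.2]
    · intro x _ hx
      simp [hx]
  · by_contra hc
    push Not at hc
    apply hz0
    funext x
    have := hc x.1 x.2
    simpa [x.2] using this

theorem card_lt_le (m j : ℕ) : Fintype.card {l : Fin m // l.1 < j} ≤ j := by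
  have := Fintype.card_le_of_injective (fun l : {l : Fin m // l.1 < j} => (⟨l.1.1, l.2⟩ : Fin j))
    (by
      intro a b hab
      apply Subtype.ext
      apply Fin.ext
      simpa using hab)
  simpa using this

end PairAux

open PairAux

theorem taskPAIR : TaskPAIR := by
  classical
  intro K _ n m j R
  refine ⟨?_, ?_⟩
  · intro y hy hj
    obtain ⟨i0, hi0⟩ : ∃ i0, y i0 ≠ 0 := by
      by_contra hc
      push Not at hc
      exact hy (funext hc)
    obtain ⟨z, -, hz, k, -, hk⟩ := exists_supp
      (Sum.elim (fun l : {l : Fin m // l.1 < j} => R l.1) (fun _ : Unit => Pi.single i0 (1 : K)))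
      Finset.univ (by
        have := card_lt_le m j
        simp only [Fintype.card_sum, Fintype.card_unit, Finset.card_univ, Fintype.card_fin]
        omega)
    refine ⟨z, fun l hl => hz (Sum.inl ⟨l, hl⟩), k, i0, ?_, ?_⟩
    · rintro rfl
      apply hk
      have := hz (Sum.inr ())
      simpa [Pi.single_apply] using this
    · have h0 : z i0 = 0 := by
        have := hz (Sum.inr ())
        simpa [Pi.single_apply] using this
      rw [h0, mul_zero, sub_zero]
      exact mul_ne_zero hi0 hk
  · intro I hI
    obtain ⟨z, h1, h2, h3⟩ := exists_supp (fun l : {l : Fin m // l.1 < j} => R l.1) I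
      (lt_of_le_of_lt (card_lt_le m j) hI)
    exact ⟨z, h1, fun l hl => h2 ⟨l, hl⟩, h3⟩

end Pool.Agent.H577R3.RM
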